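import Pool.Agent.Y192.OG.StE
import Pool.Agent.W619.PQ.Tr

/-!
Minimal polynomials and denominators of functions which are regular over places of a rational
function field (St_mp, St_coef, St_den of library Y192.OG), helper500.
-/

set_option autoImplicit false
set_option linter.overlappingInstances false

open FF MvPolynomial Pool.Agent.W603.LV Pool.Agent.TH122.AB Pool.Agent.Y192.OG

namespace Pool.Agent.Y500.OG

theorem t_mp : St_mp := by
  intro k F K _ _ _ _ _ _ _ _ _ q z hz i
  let iA : Algebra q.O K := Pool.Agent.W619.PQ.algO (F := K) q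
  have hint : IsIntegral q.O z :=
    Pool.Agent.W619.PQ.isIntegral_of_reg q z (fun w e h => hz w e h)
  have : IsDiscreteValuationRing q.O := q.isDVR
  have : IsScalarTower q.O F K := IsScalarTower.of_algebraMap_eq fun _ => rfl
  have h1 := minpoly.isIntegrallyClosed_eq_field_fractions' F hint
  rw [h1, Polynomial.coeff_map]
  exact ((minpoly q.O z).coeff i).2

section
variable {F K : Type} [Field F] [Field K] [Algebra F K]

theorem minpoly_mul (s : F) (hs : s ≠ 0) (z : K) (hz : IsIntegral F z) :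
    minpoly F (algebraMap F K s * z) = (minpoly F z).scaleRoots s := by
  symm
  refine minpoly.unique F _ ((Polynomial.monic_scaleRoots_iff s).2 (minpoly.monic hz))
    (Polynomial.scaleRoots_aeval_eq_zero (minpoly.aeval F z)) ?_
  intro p hp h0
  have h1 : Polynomial.aeval (algebraMap F K s⁻¹ * (algebraMap F K s * z)) (p.scaleRoots s⁻¹) = 0 :=
    Polynomial.scaleRoots_aeval_eq_zero h0
  have h2 : algebraMap F K s⁻¹ * (algebraMap F K s * z) = z := by
    rw [← mul_assoc, ← map_mul, inv_mul_cancel₀ hs, map_one, one_mul]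
  rw [h2] at h1
  have h3 := minpoly.min F z ((Polynomial.monic_scaleRoots_iff _).2 hp) h1
  rwa [Polynomial.degree_scaleRoots] at h3 ⊢

theorem rel_minpoly (z : K) (hz : IsIntegral F z) :
    z ^ (minpoly F z).natDegree + ∑ l ∈ Finset.Icc 1 (minpoly F z).natDegree,
      algebraMap F K ((minpoly F z).coeff ((minpoly F z).natDegree - l)) *
        z ^ ((minpoly F z).natDegree - l) = 0 := by
  set D := (minpoly F z).natDegree with hD
  have h1 := minpoly.aeval F z
  rw [Polynomial.aeval_eq_sum_range, Finset.sum_range_succ, ← hD] at h1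
  have h2 : (minpoly F z).coeff D = 1 := minpoly.monic hz
  rw [h2, one_smul, add_comm] at h1
  rw [← h1]
  congr 1
  refine Finset.sum_nbij' (fun l => D - l) (fun i => D - i) ?_ ?_ ?_ ?_ ?_
  · intro l hl
    rw [Finset.mem_Icc] at hl
    rw [Finset.mem_range]
    omega
  · intro i hi
    rw [Finset.mem_range] at hi
    rw [Finset.mem_Icc]
    omega
  · intro l hl
    rw [Finset.mem_Icc] at hl
    omega
  · intro i hi
    rw [Finset.mem_range] at hi
    omega
  · intro l _
    rw [Algebra.smul_def]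

end

theorem ord_prod {k F : Type} [Field k] [Field F] [Algebra k F] (q : Place k F) {ι : Type}
    (s : Finset ι) (x : ι → F) (hx : ∀ i ∈ s, x i ≠ 0) :
    q.ord (∏ i ∈ s, x i) = ∑ i ∈ s, q.ord (x i) := by
  classical
  induction s using Finset.induction_on with
  | empty => simp [q.ord_one]
  | insert a s ha ih =>
    have h1 := ih (fun i hi => hx i (Finset.mem_insert_of_mem hi))
    have h2 : ∏ i ∈ s, x i ≠ 0 :=
      Finset.prod_ne_zero_iff.2 (fun i hi => hx i (Finset.mem_insert_of_mem hi))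
    rw [Finset.prod_insert ha, Finset.sum_insert ha,
      q.ord_mul (hx a (Finset.mem_insert_self a s)) h2, h1]

section
variable {k F : Type} [Field k] [Field F] [Algebra k F] {b : ℕ} {X : Fin b → F}

theorem X_ne (h : Gens (k := k) X) (i : Fin b) : X i ≠ 0 := by
  have h1 := h.ne (P := MvPolynomial.X i) (MvPolynomial.X_ne_zero i)
  rwa [aeval_X] at h1

theorem ord_X_nonneg (h : Gens (k := k) X) {p : MvPolynomial (Fin b) k} {q : Place k F}
    (hq : IsAdic X p q) (i : Fin b) : 0 ≤ q.ord (X i) := by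
  have h1 := (hq.2 (MvPolynomial.X i) (MvPolynomial.X_ne_zero i)).1
  rwa [aeval_X] at h1

theorem prodX_ne (h : Gens (k := k) X) (M : ℕ) : (∏ i, X i) ^ M ≠ 0 :=
  pow_ne_zero _ (Finset.prod_ne_zero_iff.2 fun i _ => X_ne h i)

theorem ord_prodX (h : Gens (k := k) X) (q : Place k F) (M : ℕ) :
    q.ord ((∏ i, X i) ^ M) = M * ∑ i, q.ord (X i) := by
  rw [q.ord_pow, ord_prod q _ _ (fun i _ => X_ne h i)]

/-- the order of a polynomial along a coordinate hyperplane -/
theorem ord_le (h : Gens (k := k) X) (i : Fin b) {p : MvPolynomial (Fin b) k}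
    (hp : Irreducible p) (hpi : MvPolynomial.X i ∣ p) {q : Place k F} (hq : IsAdic X p q)
    {B : MvPolynomial (Fin b) k} (hB : B ≠ 0) :
    q.ord (aeval X B) ≤ B.totalDegree * q.ord (X i) := by
  have hX : Prime (MvPolynomial.X i : MvPolynomial (Fin b) k) := MvPolynomial.X_prime
  have hfin : FiniteMultiplicity (MvPolynomial.X i) B := FiniteMultiplicity.of_prime_left hX hB
  obtain ⟨B', hB', hnd⟩ := hfin.exists_eq_pow_mul_and_not_dvd
  set e := multiplicity (MvPolynomial.X i) B with he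
  have hB'0 : B' ≠ 0 := by
    rintro rfl
    exact hnd (dvd_zero _)
  have hdeg : B.totalDegree = e + B'.totalDegree := by
    rw [hB', totalDegree_mul_of_isDomain (pow_ne_zero _ (MvPolynomial.X_ne_zero i)) hB'0,
      totalDegree_X_pow]
  have h1 : q.ord (aeval X B') = 0 := by
    refine (hq.2 B' hB'0).2.2 (fun hd => hnd (hpi.trans hd))
  have h2 : q.ord (aeval X B) = e * q.ord (X i) := by
    rw [hB', map_mul, map_pow, aeval_X, q.ord_mul (pow_ne_zero _ (X_ne h i)) (h.ne hB'0),
      q.ord_pow, h1, add_zero]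
  rw [h2, hdeg]
  have h3 := ord_X_nonneg h hq i
  push_cast
  nlinarith [mul_nonneg (Nat.cast_nonneg (α := ℤ) B'.totalDegree) h3]

/-- functions which are regular outside the coordinate hyperplanes -/
theorem poly_of_reg' (h : Gens (k := k) X) (z : F)
    (hz : ∀ p : MvPolynomial (Fin b) k, Irreducible p → (∀ i, ¬ (MvPolynomial.X i ∣ p)) →
      ∀ q : Place k F, IsAdic X p q → q.Reg z) :
    ∃ M₀ : ℕ, ∀ M : ℕ, M₀ ≤ M → ∃ a : MvPolynomial (Fin b) k, z * (∏ i, X i) ^ M = aeval X a := by
  by_cases hz0 : z = 0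
  · exact ⟨0, fun M _ => ⟨0, by rw [hz0, zero_mul, map_zero]⟩⟩
  obtain ⟨A, B, hB, hAB⟩ := h.gen z
  have hA : A ≠ 0 := by
    rintro rfl
    exact hz0 (by rw [hAB, map_zero, zero_div])
  refine ⟨B.totalDegree, fun M hM => ?_⟩
  refine poly_of_reg h fun p hp v hv1 hv2 => ?_
  have hv : IsAdic X p v := ⟨hv1, hv2⟩
  have hXn : ∀ i, 0 ≤ v.ord (X i) := fun i => ord_X_nonneg h hv i
  by_cases hpi : ∀ i, ¬ (MvPolynomial.X i ∣ p)
  · refine v.reg_mul (hz p hp hpi v hv) (Or.inr ?_)
    rw [ord_prodX h]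
    exact mul_nonneg (Nat.cast_nonneg _) (Finset.sum_nonneg fun i _ => hXn i)
  · push Not at hpi
    obtain ⟨i, hi⟩ := hpi
    right
    rw [v.ord_mul hz0 (prodX_ne h M), ord_prodX h, hAB, v.ord_div (h.ne hA) (h.ne hB)]
    have h1 := (hv2 A hA).1
    have h2 := ord_le h i hp hi hv hB
    have h3 : v.ord (X i) ≤ ∑ j, v.ord (X j) :=
      Finset.single_le_sum (f := fun j => v.ord (X j)) (fun j _ => hXn j) (Finset.mem_univ i)
    have h4 : (B.totalDegree : ℤ) * v.ord (X i) ≤ (M : ℤ) * ∑ j, v.ord (X j) := by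
      have h5 : (B.totalDegree : ℤ) ≤ M := by exact_mod_cast hM
      have h6 := hXn i
      calc (B.totalDegree : ℤ) * v.ord (X i) ≤ (M : ℤ) * v.ord (X i) :=
            mul_le_mul_of_nonneg_right h5 h6
        _ ≤ _ := mul_le_mul_of_nonneg_left h3 (Nat.cast_nonneg _)
    linarith

theorem tw_single (w : Fin b → ℤ) (i : Fin b) : tw w (Finsupp.single i 1) = w i := by
  unfold tw
  rw [Finset.sum_eq_single i]
  · simp
  · intro j _ hj
    rw [Finsupp.single_eq_of_ne hj]
    simp
  · intro h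
    exact absurd (Finset.mem_univ i) h

theorem tor_X {w : Fin b → ℤ} {q : Place k F} (hq : IsTor X w q) (i : Fin b) :
    q.ord (X i) = w i := by
  obtain ⟨-, c, hc, h1⟩ := hq (MvPolynomial.X i) (MvPolynomial.X_ne_zero i)
  rw [support_X, Finset.mem_singleton] at hc
  rw [aeval_X, hc, tw_single] at h1
  exact h1

end

/-- primitive vectors -/
theorem prim_of_ne {b : ℕ} (w : Fin b → ℤ) (hw : w ≠ 0) :
    ∃ (g : ℤ) (w' : Fin b → ℤ), 0 < g ∧ Prim w' ∧ ∀ i, w i = g * w' i := by
  obtain ⟨g0, hg0⟩ := (IsPrincipalIdealRing.principal (Ideal.span (Set.range w))).principal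
  have hg0' : Ideal.span (Set.range w) = Ideal.span {g0} := hg0
  have hw0 : g0 ≠ 0 := by
    rintro rfl
    apply hw
    funext i
    have h1 : w i ∈ Ideal.span (Set.range w) := Ideal.subset_span ⟨i, rfl⟩
    rw [hg0'] at h1
    simpa using h1
  have habs : Ideal.span {g0} = Ideal.span {|g0|} := by
    rw [Ideal.span_singleton_eq_span_singleton]
    exact (Int.associated_iff).2 (by
      rcases abs_choice g0 with h | h
      · exact Or.inl h.symm
      · exact Or.inr (by rw [h, neg_neg]))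
  rw [habs] at hg0'
  have hpos : 0 < |g0| := abs_pos.2 hw0
  have hdvd : ∀ i, ∃ c, w i = |g0| * c := by
    intro i
    have h1 : w i ∈ Ideal.span (Set.range w) := Ideal.subset_span ⟨i, rfl⟩
    rw [hg0', Ideal.mem_span_singleton] at h1
    exact h1
  choose w' hw' using hdvd
  refine ⟨|g0|, w', hpos, ?_, hw'⟩
  have h1 : |g0| ∈ Ideal.span (Set.range w) := by
    rw [hg0']
    exact Ideal.mem_span_singleton_self _
  obtain ⟨c, hc⟩ := Ideal.mem_span_range_iff_exists_fun.1 h1
  refine ⟨c, ?_⟩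
  have h2 : |g0| * ∑ i, w' i * c i = |g0| * 1 := by
    rw [mul_one, Finset.mul_sum]
    refine Eq.trans ?_ hc
    refine Finset.sum_congr rfl fun i _ => ?_
    rw [hw' i]
    ring
  exact mul_left_cancel₀ hpos.ne' h2

theorem tw_mul {b : ℕ} {w w' : Fin b → ℤ} {g : ℤ} (h : ∀ i, w i = g * w' i) (c : Fin b →₀ ℕ) :
    tw w c = g * tw w' c := by
  unfold tw
  rw [Finset.mul_sum]
  exact Finset.sum_congr rfl fun i _ => by rw [h i]; ring

theorem t_coef (hmp : St_mp) (htor : St_tor) : St_coef := by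
  classical
  intro k F K _ _ _ _ _ _ _ _ _ b X hX f κ ψ hf hadic htr
  have hint : IsIntegral F ψ := Algebra.IsIntegral.isIntegral ψ
  have hfX : aeval X f ≠ 0 := hX.ne hf
  set s : F := aeval X f ^ κ with hs
  have hs0 : s ≠ 0 := pow_ne_zero _ hfX
  set D := (minpoly F ψ).natDegree with hD
  set c : ℕ → F := fun l => (minpoly F ψ).coeff (D - l) with hc
  -- regularity of the coefficients outside the coordinate hyperplanes
  have hreg : ∀ l ∈ Finset.Icc 1 D, ∀ p : MvPolynomial (Fin b) k, Irreducible p →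
      (∀ i, ¬ (MvPolynomial.X i ∣ p)) → ∀ q : Place k F, IsAdic X p q → q.Reg (s ^ l * c l) := by
    intro l hl p hp hpi q hq
    rw [Finset.mem_Icc] at hl
    have h1 : ∀ (P : Place k K) (e : ℕ), Over P q e → P.Reg (algebraMap F K s * ψ) := by
      intro P e hPe
      have h2 := hadic p hp hpi q hq P e hPe
      rw [← map_pow, mul_comm] at h2
      exact h2
    have h2 := hmp k F K q (algebraMap F K s * ψ) h1 (D - l)
    rw [minpoly_mul s hs0 ψ hint, Polynomial.coeff_scaleRoots, ← hD] at h2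
    have h3 : D - (D - l) = l := by omega
    rw [h3, mul_comm] at h2
    exact h2
  have hM : ∀ l ∈ Finset.Icc 1 D, ∃ M₀ : ℕ, ∀ M : ℕ, M₀ ≤ M →
      ∃ a : MvPolynomial (Fin b) k, s ^ l * c l * (∏ i, X i) ^ M = aeval X a :=
    fun l hl => poly_of_reg' hX _ (hreg l hl)
  choose! M₀ hM₀ using hM
  set M := ∑ l ∈ Finset.Icc 1 D, M₀ l with hMdef
  have ha : ∀ l ∈ Finset.Icc 1 D, ∃ a : MvPolynomial (Fin b) k,
      s ^ l * c l * (∏ i, X i) ^ M = aeval X a := fun l hl =>
    hM₀ l hl M (Finset.single_le_sum (fun _ _ => Nat.zero_le _) hl)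
  choose! a ha using ha
  refine ⟨D, M, c, a, rel_minpoly ψ hint, fun l hl => ⟨?_, ?_⟩⟩
  · rw [← ha l hl, hs, ← pow_mul]
  · intro w m hm
    by_cases hw : w = 0
    · obtain ⟨t, ht⟩ := (MvPolynomial.support_nonempty).2 hf
      refine ⟨t, ht, ?_⟩
      subst hw
      simp [tw]
    · obtain ⟨g, w', hg, hw', hgw⟩ := prim_of_ne w hw
      obtain ⟨q, hq⟩ := htor k F b X hX w' hw'
      have hreg' := hmp k F K q ψ (fun P e hPe => htr w' hw' q hq P e hPe) (D - l)
      have hal : a l ≠ 0 := by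
        intro h0
        rw [h0] at hm
        simp at hm
      have h1 := ha l hl
      have hcl : c l ≠ 0 := by
        intro h0
        rw [h0, mul_zero, zero_mul] at h1
        exact hX.ne hal h1.symm
      have hcl0 : 0 ≤ q.ord (c l) := (q.reg_iff hcl).1 hreg'
      obtain ⟨-, t, ht, hqt⟩ := hq f hf
      refine ⟨t, ht, ?_⟩
      have h2 := (hq (a l) hal).1 m hm
      rw [← h1, q.ord_mul (mul_ne_zero (pow_ne_zero _ hs0) hcl) (prodX_ne hX M),
        q.ord_mul (pow_ne_zero _ hs0) hcl, ord_prodX hX, hs, ← pow_mul, q.ord_pow, hqt] at h2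
      have h3 : ∑ i, q.ord (X i) = ∑ i, w' i := Finset.sum_congr rfl fun i _ => tor_X hq i
      rw [h3] at h2
      rw [tw_mul hgw t, tw_mul hgw m]
      have h4 : ∑ i, w i = g * ∑ i, w' i := by
        rw [Finset.mul_sum]
        exact Finset.sum_congr rfl fun i _ => hgw i
      rw [h4]
      have h5 : ((κ * l : ℕ) : ℤ) * tw w' t ≤ tw w' m - M * ∑ i, w' i := by linarith
      calc ((κ * l : ℕ) : ℤ) * (g * tw w' t) = g * (((κ * l : ℕ) : ℤ) * tw w' t) := by ring
        _ ≤ g * (tw w' m - M * ∑ i, w' i) := mul_le_mul_of_nonneg_left h5 hg.le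
        _ = _ := by ring

theorem den_one {k F : Type} [Field k] [Field F] [Algebra k F] {b : ℕ} {X : Fin b → F}
    (h : Gens (k := k) X) {f : MvPolynomial (Fin b) k} (hf : f ≠ 0) (c : F)
    (hc : ∀ p : MvPolynomial (Fin b) k, Irreducible p → p ∣ f → ∀ q : Place k F, IsAdic X p q →
      q.Reg c) :
    ∃ n d : MvPolynomial (Fin b) k, d ≠ 0 ∧ IsRelPrime d f ∧ c * aeval X d = aeval X n := by
  by_cases hc0 : c = 0
  · exact ⟨0, 1, one_ne_zero, isRelPrime_one_left, by rw [hc0, map_zero, zero_mul]⟩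
  obtain ⟨P0, Q0, hQ0, hz1⟩ := h.gen c
  obtain ⟨P, Q, hQ, hcop, hz2⟩ : ∃ P Q : MvPolynomial (Fin b) k, Q ≠ 0 ∧ IsRelPrime P Q ∧
      c = aeval X P / aeval X Q := by
    obtain ⟨a', b', c', hcop, ha, hb⟩ :=
      UniqueFactorizationMonoid.exists_reduced_factors' P0 Q0 hQ0
    refine ⟨a', b', ?_, hcop, ?_⟩
    · rintro rfl
      apply hQ0
      rw [← hb, mul_zero]
    · have hc' : c' ≠ 0 := by
        rintro rfl
        apply hQ0
        rw [← hb, zero_mul]
      have hcX := h.ne hc'
      rw [hz1, ← ha, ← hb, map_mul, map_mul, mul_div_mul_left _ _ hcX]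
  have hP : P ≠ 0 := by
    rintro rfl
    exact hc0 (by rw [hz2, map_zero, zero_div])
  refine ⟨P, Q, hQ, ?_, by rw [hz2, div_mul_cancel₀ _ (h.ne hQ)]⟩
  intro e heQ hef
  by_contra hu
  have he0 : e ≠ 0 := by
    rintro rfl
    exact hf (zero_dvd_iff.1 hef)
  obtain ⟨p, hp, hpe⟩ := WfDvdMonoid.exists_irreducible_factor hu he0
  obtain ⟨v, hv1, hv2⟩ := exists_adic h hp
  have h1 := hc p hp (hpe.trans hef) v ⟨hv1, hv2⟩
  have hpP : ¬ p ∣ P := fun hpP => hp.not_isUnit (hcop hpP (hpe.trans heQ))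
  have h2 := (hv2 P hP).2.2 hpP
  have h3 : 0 < v.ord (aeval X Q) := by
    have h4 := hv2 Q hQ
    rcases lt_or_eq_of_le h4.1 with h5 | h5
    · exact h5
    · exact absurd (hpe.trans heQ) (h4.2.1 h5.symm)
  rw [v.reg_iff hc0, hz2, v.ord_div (h.ne hP) (h.ne hQ), h2] at h1
  omega

theorem t_den (hmp : St_mp) : St_den := by
  classical
  intro k F K _ _ _ _ _ _ _ _ _ b X hX f hf z hz
  have hint : IsIntegral F z := Algebra.IsIntegral.isIntegral z
  set D := (minpoly F z).natDegree with hD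
  set c : ℕ → F := fun l => (minpoly F z).coeff (D - l) with hc
  have hreg : ∀ l, ∀ p : MvPolynomial (Fin b) k, Irreducible p → p ∣ f →
      ∀ q : Place k F, IsAdic X p q → q.Reg (c l) := by
    intro l p hp hpf q hq
    exact hmp k F K q z (fun P e hPe => hz p hp hpf q hq P e hPe) (D - l)
  choose n d hd hcop hnd using fun l => den_one hX hf (c l) (hreg l)
  set s : MvPolynomial (Fin b) k := ∏ l ∈ Finset.Icc 1 D, d l with hs
  have hs0 : s ≠ 0 := Finset.prod_ne_zero_iff.2 fun l _ => hd l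
  refine ⟨s, hs0, ?_, D, fun l => s ^ (l - 1) * (n l * ∏ j ∈ (Finset.Icc 1 D).erase l, d j), ?_⟩
  · rw [hs]
    exact IsRelPrime.prod_left fun l _ => hcop l
  · have hrel := rel_minpoly z hint
    rw [← hD] at hrel
    have hterm : ∀ l ∈ Finset.Icc 1 D,
        algebraMap F K (aeval X (s ^ (l - 1) * (n l * ∏ j ∈ (Finset.Icc 1 D).erase l, d j))) *
          (algebraMap F K (aeval X s) * z) ^ (D - l) =
        algebraMap F K (aeval X s) ^ D * (algebraMap F K (c l) * z ^ (D - l)) := by
      intro l hl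
      have hl2 := hl
      rw [Finset.mem_Icc] at hl2
      have h1 : aeval X (s ^ (l - 1) * (n l * ∏ j ∈ (Finset.Icc 1 D).erase l, d j)) =
          aeval X s ^ l * c l := by
        have h2 : aeval X s = aeval X (d l) * aeval X (∏ j ∈ (Finset.Icc 1 D).erase l, d j) := by
          rw [← map_mul, Finset.mul_prod_erase _ _ hl]
        have h3 : aeval X s ^ l = aeval X s ^ (l - 1) * aeval X s := by
          rw [← pow_succ]
          congr 1
          omega
        rw [map_mul, map_mul, map_pow, ← hnd l, h3]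
        nth_rewrite 3 [h2]
        ring
      rw [h1, mul_pow, map_mul, map_pow]
      have h4 : algebraMap F K (aeval X s) ^ D =
          algebraMap F K (aeval X s) ^ l * algebraMap F K (aeval X s) ^ (D - l) := by
        rw [← pow_add]
        congr 1
        omega
      rw [h4]
      ring
    rw [Finset.sum_congr rfl hterm, ← Finset.mul_sum, mul_pow, ← mul_add, hrel, mul_zero]

end Pool.Agent.Y500.OG
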